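import Pool.Agent.W728.PK.Stms

set_option autoImplicit false

namespace Pool.Agent.W381.PK

open Complex Metric Set Filter Topology MeasureTheory
open scoped Real ComplexConjugate
open Pool.Agent.W728.PK

noncomputable section

theorem slit {w : ℂ} (hw : w ≠ 0) (hre : 0 ≤ w.re) : w ∈ slitPlane := by
  rw [mem_slitPlane_iff]
  rcases hre.lt_or_eq with h | h
  · exact Or.inl h
  · right
    intro him
    exact hw (Complex.ext h.symm him)

theorem re_add {w : ℂ} {d : ℝ} (hd : 0 < d) (hre : 0 ≤ w.re) : 0 < (w + (d : ℂ)).re := by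
  simp; linarith

theorem slit_add {w : ℂ} {d : ℝ} (hd : 0 < d) (hre : 0 ≤ w.re) : w + (d : ℂ) ∈ slitPlane :=
  mem_slitPlane_iff.2 (Or.inl (re_add hd hre))

theorem add_ne {w : ℂ} {d : ℝ} (hd : 0 < d) (hre : 0 ≤ w.re) : w + (d : ℂ) ≠ 0 :=
  slitPlane_ne_zero (slit_add hd hre)

theorem norm_Phi (α d : ℝ) (hd : 0 < d) (w : ℂ) :
    ‖Phi α d w‖ = d ^ (1 - α) / (‖w‖ ^ α * ‖w + (d : ℂ)‖ ^ (1 - α)) := by
  unfold Phi
  rw [norm_div, norm_mul, Complex.norm_cpow_real, Complex.norm_cpow_real, Complex.norm_real,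
    Real.norm_of_nonneg (by positivity)]

theorem norm_le_add {w : ℂ} {d : ℝ} (hd : 0 < d) (hre : 0 ≤ w.re) : ‖w‖ ≤ ‖w + (d : ℂ)‖ := by
  rw [← sq_le_sq₀ (norm_nonneg _) (norm_nonneg _), ← Complex.normSq_eq_norm_sq,
    ← Complex.normSq_eq_norm_sq, Complex.normSq_apply, Complex.normSq_apply]
  simp
  nlinarith

theorem d_le_add {w : ℂ} {d : ℝ} (hre : 0 ≤ w.re) : d ≤ ‖w + (d : ℂ)‖ := by
  refine le_trans ?_ (Complex.re_le_norm _)
  simp; linarith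

/-- the logarithm of `Φ` -/
def LL (α d : ℝ) (w : ℂ) : ℂ :=
  (((1 - α) * Real.log d : ℝ) : ℂ) - (α : ℂ) * Complex.log w
    - ((1 - α : ℝ) : ℂ) * Complex.log (w + (d : ℂ))

theorem Phi_eq_exp (α d : ℝ) (hd : 0 < d) {w : ℂ} (hw : w ≠ 0) (hwd : w + (d : ℂ) ≠ 0) :
    Phi α d w = Complex.exp (LL α d w) := by
  unfold Phi LL
  rw [Complex.exp_sub, Complex.exp_sub, Complex.cpow_def_of_ne_zero hw,
    Complex.cpow_def_of_ne_zero hwd, ← Complex.ofReal_exp, mul_comm (1 - α) (Real.log d),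
    ← Real.rpow_def_of_pos hd, div_div, mul_comm (Complex.log w), mul_comm (Complex.log (w + (d : ℂ)))]

theorem im_LL (α d : ℝ) (w : ℂ) :
    (LL α d w).im = -(α * Complex.arg w + (1 - α) * Complex.arg (w + (d : ℂ))) := by
  unfold LL
  rw [Complex.sub_im, Complex.sub_im, Complex.ofReal_im, Complex.im_ofReal_mul, Complex.im_ofReal_mul,
    Complex.log_im, Complex.log_im]
  ring

theorem re_Phi (α d : ℝ) (hd : 0 < d) {w : ℂ} (hw : w ≠ 0) (hwd : w + (d : ℂ) ≠ 0) :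
    (Phi α d w).re = ‖Phi α d w‖ *
      Real.cos (α * Complex.arg w + (1 - α) * Complex.arg (w + (d : ℂ))) := by
  rw [Phi_eq_exp α d hd hw hwd, Complex.exp_re, Complex.norm_exp, im_LL, Real.cos_neg]

theorem abs_arg_le {w : ℂ} (hre : 0 ≤ w.re) : |Complex.arg w| ≤ π / 2 :=
  Complex.abs_arg_le_pi_div_two_iff.2 hre

theorem t_PhiBound : PhiBound_stmt := by
  intro α d h0 h1 hd w hw hre
  have hwp : 0 < ‖w‖ := norm_pos_iff.2 hw
  have hwdp : 0 < ‖w + (d : ℂ)‖ := norm_pos_iff.2 (add_ne hd hre)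
  have h1a : 0 ≤ 1 - α := by linarith
  refine ⟨?_, ?_, ?_⟩
  · rw [norm_Phi α d hd w]
    apply div_le_div_of_nonneg_left (by positivity) hwp
    calc ‖w‖ = ‖w‖ ^ α * ‖w‖ ^ (1 - α) := by
          rw [← Real.rpow_add hwp]; simp
      _ ≤ ‖w‖ ^ α * ‖w + (d : ℂ)‖ ^ (1 - α) := by
          gcongr
          exact norm_le_add hd hre
  · rw [norm_Phi α d hd w, Real.rpow_neg hwp.le, div_le_iff₀ (by positivity)]
    calc d ^ (1 - α) ≤ ‖w + (d : ℂ)‖ ^ (1 - α) := by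
          gcongr
          exact d_le_add hre
      _ = (‖w‖ ^ α)⁻¹ * (‖w‖ ^ α * ‖w + (d : ℂ)‖ ^ (1 - α)) := by
          rw [inv_mul_cancel_left₀ (by positivity)]
  · rw [re_Phi α d hd hw (add_ne hd hre)]
    apply mul_nonneg (norm_nonneg _)
    have ha := abs_le.1 (abs_arg_le hre)
    have hb := abs_le.1 (abs_arg_le (re_add hd hre).le)
    apply Real.cos_nonneg_of_neg_pi_div_two_le_of_le
    · nlinarith
    · nlinarith

theorem arg_add_le {w : ℂ} {d : ℝ} (hd : 0 < d) (hre : 0 ≤ w.re) (hwd : ‖w‖ ≤ d) :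
    |Complex.arg (w + (d : ℂ))| ≤ π / 4 := by
  have hre' := re_add hd hre
  have hlt := abs_lt.1 (Complex.abs_arg_lt_pi_div_two_iff.2 (Or.inl hre'))
  have harg : Complex.arg (w + (d : ℂ)) = Real.arctan ((w + (d : ℂ)).im / (w + (d : ℂ)).re) := by
    rw [← Complex.tan_arg, Real.arctan_tan hlt.1 hlt.2]
  have him : |(w + (d : ℂ)).im| ≤ (w + (d : ℂ)).re := by
    have h1 := Complex.abs_im_le_norm w
    simp only [Complex.add_im, Complex.ofReal_im, add_zero, Complex.add_re, Complex.ofReal_re]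
    linarith
  have h2 := abs_le.1 him
  rw [harg, ← Real.arctan_one, abs_le, ← Real.arctan_neg]
  constructor
  · apply Real.arctan_le_arctan_iff.2
    rw [le_div_iff₀ hre']
    linarith
  · apply Real.arctan_le_arctan_iff.2
    rw [div_le_iff₀ hre']
    linarith

theorem t_PhiRe : PhiRe_stmt := by
  intro α h0 h1
  have hpi := Real.pi_pos
  have hcos : 0 < Real.cos ((1 + α) * π / 4) := by
    apply Real.cos_pos_of_mem_Ioo
    constructor <;> nlinarith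
  refine ⟨(2 : ℝ) ^ (α - 1) * Real.cos ((1 + α) * π / 4), by positivity, ?_⟩
  intro d hd w hw hre hwd
  have hwp : 0 < ‖w‖ := norm_pos_iff.2 hw
  have hwdp : 0 < ‖w + (d : ℂ)‖ := norm_pos_iff.2 (add_ne hd hre)
  rw [re_Phi α d hd hw (add_ne hd hre)]
  have hnorm : (2 : ℝ) ^ (α - 1) * ‖w‖ ^ (-α) ≤ ‖Phi α d w‖ := by
    rw [norm_Phi α d hd w, Real.rpow_neg hwp.le, le_div_iff₀ (by positivity)]
    have h2 : ‖w + (d : ℂ)‖ ≤ 2 * d := by
      refine (norm_add_le _ _).trans ?_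
      rw [Complex.norm_real, Real.norm_of_nonneg hd.le]
      linarith
    calc (2 : ℝ) ^ (α - 1) * (‖w‖ ^ α)⁻¹ * (‖w‖ ^ α * ‖w + (d : ℂ)‖ ^ (1 - α))
        = (2 : ℝ) ^ (α - 1) * ‖w + (d : ℂ)‖ ^ (1 - α) * ((‖w‖ ^ α)⁻¹ * ‖w‖ ^ α) := by ring
      _ = (2 : ℝ) ^ (α - 1) * ‖w + (d : ℂ)‖ ^ (1 - α) := by
          rw [inv_mul_cancel₀ (by positivity), mul_one]
      _ ≤ (2 : ℝ) ^ (α - 1) * (2 * d) ^ (1 - α) := by
          gcongr
      _ = ((2 : ℝ) ^ (α - 1) * 2 ^ (1 - α)) * d ^ (1 - α) := by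
          rw [Real.mul_rpow (by norm_num) hd.le]; ring
      _ = d ^ (1 - α) := by
          rw [← Real.rpow_add (by norm_num)]; simp
  have ha := abs_arg_le hre
  have hb := arg_add_le hd hre hwd
  have hcc : Real.cos ((1 + α) * π / 4) ≤
      Real.cos (α * Complex.arg w + (1 - α) * Complex.arg (w + (d : ℂ))) := by
    rw [← Real.cos_abs (α * Complex.arg w + (1 - α) * Complex.arg (w + (d : ℂ)))]
    apply Real.cos_le_cos_of_nonneg_of_le_pi (abs_nonneg _)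
    · nlinarith
    · calc |α * Complex.arg w + (1 - α) * Complex.arg (w + (d : ℂ))|
          ≤ |α * Complex.arg w| + |(1 - α) * Complex.arg (w + (d : ℂ))| := abs_add_le _ _
        _ = α * |Complex.arg w| + (1 - α) * |Complex.arg (w + (d : ℂ))| := by
            rw [abs_mul, abs_mul, abs_of_pos h0, abs_of_pos (by linarith : 0 < 1 - α)]
        _ ≤ α * (π / 2) + (1 - α) * (π / 4) := by
            gcongr
        _ = (1 + α) * π / 4 := by ring
  calc (2 : ℝ) ^ (α - 1) * Real.cos ((1 + α) * π / 4) * ‖w‖ ^ (-α)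
      = ((2 : ℝ) ^ (α - 1) * ‖w‖ ^ (-α)) * Real.cos ((1 + α) * π / 4) := by ring
    _ ≤ ‖Phi α d w‖ * Real.cos (α * Complex.arg w + (1 - α) * Complex.arg (w + (d : ℂ))) := by
        gcongr

theorem hasDerivAt_Phi (α d : ℝ) (hd : 0 < d) {w : ℂ} (hw : w ≠ 0) (hre : 0 ≤ w.re) :
    HasDerivAt (Phi α d) (Phi α d w *
      (-((α : ℂ) * w⁻¹) - ((1 - α : ℝ) : ℂ) * (w + (d : ℂ))⁻¹)) w := by
  have h1 : HasDerivAt Complex.log w⁻¹ w := Complex.hasDerivAt_log (slit hw hre)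
  have h2 : HasDerivAt (fun z : ℂ => Complex.log (z + (d : ℂ))) (w + (d : ℂ))⁻¹ w := by
    have h := ((hasDerivAt_id w).add_const (d : ℂ)).clog (slit_add hd hre)
    simpa using h
  have h3 : HasDerivAt (LL α d) (-((α : ℂ) * w⁻¹) - ((1 - α : ℝ) : ℂ) * (w + (d : ℂ))⁻¹) w := by
    unfold LL
    exact ((h1.const_mul (α : ℂ)).const_sub _).sub (h2.const_mul ((1 - α : ℝ) : ℂ))
  have h4 := h3.cexp
  rw [← Phi_eq_exp α d hd hw (add_ne hd hre)] at h4
  refine h4.congr_of_eventuallyEq ?_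
  have h5 : ∀ᶠ z : ℂ in 𝓝 w, z ≠ 0 := isOpen_ne.mem_nhds hw
  have h6 : ∀ᶠ z : ℂ in 𝓝 w, z + (d : ℂ) ≠ 0 := by
    have : ContinuousAt (fun z : ℂ => z + (d : ℂ)) w := by fun_prop
    exact this.eventually_ne (add_ne hd hre)
  filter_upwards [h5, h6] with z hz1 hz2
  exact Phi_eq_exp α d hd hz1 hz2

theorem t_PhiAn : PhiAn_stmt := by
  intro α d _ _ hd w hw hre
  exact (hasDerivAt_Phi α d hd hw hre).differentiableAt

theorem t_PhiDiff : PhiDiff_stmt := by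
  intro α d h0 h1 hd w w' hw hre hre' hww
  have hwp : 0 < ‖w‖ := norm_pos_iff.2 hw
  have hwdp : 0 < ‖w + (d : ℂ)‖ := norm_pos_iff.2 (add_ne hd hre)
  have hle := norm_le_add hd hre
  have hseg : ∀ u ∈ segment ℝ w w', 0 ≤ u.re ∧ ‖w‖ / 2 ≤ ‖u‖ ∧
      ‖w + (d : ℂ)‖ / 2 ≤ ‖u + (d : ℂ)‖ := by
    intro u hu
    have hu1 : 0 ≤ u.re := (convex_halfSpace_re_ge 0).segment_subset
      (show w ∈ {c : ℂ | 0 ≤ c.re} from hre) (show w' ∈ {c : ℂ | 0 ≤ c.re} from hre') hu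
    have hu2 : ‖u - w‖ ≤ ‖w' - w‖ := norm_sub_le_of_mem_segment hu
    rw [norm_sub_rev w' w] at hu2
    have hu3 : ‖w‖ ≤ ‖u‖ + ‖u - w‖ := by
      calc ‖w‖ = ‖u - (u - w)‖ := by congr 1; ring
        _ ≤ _ := norm_sub_le _ _
    have hu4 : ‖w + (d : ℂ)‖ ≤ ‖u + (d : ℂ)‖ + ‖u - w‖ := by
      calc ‖w + (d : ℂ)‖ = ‖(u + (d : ℂ)) - (u - w)‖ := by congr 1; ring
        _ ≤ _ := norm_sub_le _ _
    refine ⟨hu1, by linarith, by linarith⟩
  have hmain := Convex.norm_image_sub_le_of_norm_hasDerivWithin_le (𝕜 := ℂ)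
    (f := Phi α d) (f' := fun u => Phi α d u *
      (-((α : ℂ) * u⁻¹) - ((1 - α : ℝ) : ℂ) * (u + (d : ℂ))⁻¹))
    (s := segment ℝ w w') (C := 4 * ‖Phi α d w‖ / ‖w‖) (x := w') (y := w)
    (fun u hu => by
      obtain ⟨a, b, c⟩ := hseg u hu
      have hu0 : u ≠ 0 := by
        intro h
        rw [h, norm_zero] at b
        linarith
      exact (hasDerivAt_Phi α d hd hu0 a).hasDerivWithinAt)
    (fun u hu => by
      obtain ⟨a, b, c⟩ := hseg u hu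
      have hu0 : u ≠ 0 := by
        intro h
        rw [h, norm_zero] at b
        linarith
      have hup : 0 < ‖u‖ := norm_pos_iff.2 hu0
      have hudp : 0 < ‖u + (d : ℂ)‖ := norm_pos_iff.2 (add_ne hd a)
      have hule := norm_le_add hd a
      have e1 : ‖Phi α d u‖ ≤ 2 * ‖Phi α d w‖ := by
        rw [norm_Phi α d hd u, norm_Phi α d hd w]
        calc d ^ (1 - α) / (‖u‖ ^ α * ‖u + (d : ℂ)‖ ^ (1 - α))
            ≤ d ^ (1 - α) / ((‖w‖ / 2) ^ α * (‖w + (d : ℂ)‖ / 2) ^ (1 - α)) := by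
              apply div_le_div_of_nonneg_left (by positivity) (by positivity)
              gcongr
          _ = 2 * (d ^ (1 - α) / (‖w‖ ^ α * ‖w + (d : ℂ)‖ ^ (1 - α))) := by
              rw [Real.div_rpow hwp.le (by norm_num), Real.div_rpow hwdp.le (by norm_num)]
              have h2 : (2 : ℝ) = 2 ^ α * 2 ^ (1 - α) := by
                rw [← Real.rpow_add (by norm_num)]; simp
              have h3 : (0 : ℝ) < 2 ^ α := by positivity
              have h4 : (0 : ℝ) < 2 ^ (1 - α) := by positivity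
              have h5 : (0 : ℝ) < ‖w‖ ^ α := by positivity
              have h6 : (0 : ℝ) < ‖w + (d : ℂ)‖ ^ (1 - α) := by positivity
              calc d ^ (1 - α) / (‖w‖ ^ α / 2 ^ α * (‖w + (d : ℂ)‖ ^ (1 - α) / 2 ^ (1 - α)))
                  = (2 ^ α * 2 ^ (1 - α)) * (d ^ (1 - α) / (‖w‖ ^ α * ‖w + (d : ℂ)‖ ^ (1 - α))) := by
                    field_simp
                _ = _ := by rw [← h2]
      have e2 : ‖-((α : ℂ) * u⁻¹) - ((1 - α : ℝ) : ℂ) * (u + (d : ℂ))⁻¹‖ ≤ 2 / ‖w‖ := by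
        calc ‖-((α : ℂ) * u⁻¹) - ((1 - α : ℝ) : ℂ) * (u + (d : ℂ))⁻¹‖
            ≤ ‖-((α : ℂ) * u⁻¹)‖ + ‖((1 - α : ℝ) : ℂ) * (u + (d : ℂ))⁻¹‖ := norm_sub_le _ _
          _ = α * ‖u‖⁻¹ + (1 - α) * ‖u + (d : ℂ)‖⁻¹ := by
              rw [norm_neg, norm_mul, norm_mul, norm_inv, norm_inv, Complex.norm_real,
                Complex.norm_real, Real.norm_of_nonneg h0.le, Real.norm_of_nonneg (by linarith)]
          _ ≤ α * ‖u‖⁻¹ + (1 - α) * ‖u‖⁻¹ := by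
              gcongr
          _ = ‖u‖⁻¹ := by ring
          _ ≤ (‖w‖ / 2)⁻¹ := by gcongr
          _ = 2 / ‖w‖ := by rw [inv_div]
      calc ‖Phi α d u * (-((α : ℂ) * u⁻¹) - ((1 - α : ℝ) : ℂ) * (u + (d : ℂ))⁻¹)‖
          = ‖Phi α d u‖ * ‖-((α : ℂ) * u⁻¹) - ((1 - α : ℝ) : ℂ) * (u + (d : ℂ))⁻¹‖ := norm_mul _ _
        _ ≤ (2 * ‖Phi α d w‖) * (2 / ‖w‖) := by gcongr
        _ = 4 * ‖Phi α d w‖ / ‖w‖ := by ring)
    (convex_segment w w') (right_mem_segment ℝ w w') (left_mem_segment ℝ w w')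
  calc ‖Phi α d w - Phi α d w'‖ ≤ 4 * ‖Phi α d w‖ / ‖w‖ * ‖w - w'‖ := hmain
    _ = 4 * ‖w - w'‖ * ‖Phi α d w‖ / ‖w‖ := by ring

end

end Pool.Agent.W381.PK
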